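import Mathlib
import Pool.Agent.Lib.MP_6e3e44_an.Defs
import Pool.Agent.Lib.MP_6e3e44_an.Core

set_option autoImplicit false

open MeasureTheory
open scoped ENNReal
open Pool.Agent.Lib.MP_6e3e44_an

namespace Pool.Agent.Results.MP_6e3e44_an.LipInterp

/-- **Answer to Q1 (affirmative).** For all exponents `1 ≤ β < γ < α < ∞`, the space `L^γ[0,1]` is
a Lipschitz interpolation space with some constant `C > 0` between `L^β[0,1]` and `L^α[0,1]`. -/
theorem result : ∀ β γ α : ℝ≥0∞, 1 ≤ β → β < γ → γ < α → α < ∞ →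
    ∃ C : ℝ, 0 < C ∧ IsLipschitzInterpolation β γ α C :=
  lipschitz_interpolation

end Pool.Agent.Results.MP_6e3e44_an.LipInterp
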